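import Pool.Agent.H56.PMF.EDG

/-!
# Row CPX: the intersections of the faces
-/

set_option autoImplicit false

open scoped symmDiff

namespace Pool.Agent.H56.PMF

open Pool.Agent.H54.PM

theorem pf_CPX (h1 : T_PO1) (h2 : T_PO2) (h3 : T_PTI) (h4 : T_EDG) : T_CPX := by
  intro p _ q hp g h hg hh hne
  obtain ⟨i, hi⟩ : ∃ i, g i ≠ h i := by
    by_contra hcon
    push Not at hcon
    exact hne (funext hcon)
  -- points in both faces
  have hint : ∀ z, z ∈ body (fc q g) ∩ body (fc q h) ↔
      ∃ x ∈ PP p, (∀ j, g j = h j ∨ el j x = 0) ∧ pt q g x = z := by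
    intro z
    rw [body_fc, body_fc]
    constructor
    · rintro ⟨⟨x, hx, rfl⟩, ⟨y, hy, hxy⟩⟩
      rw [pt_eq q h g hh] at hxy
      obtain ⟨rfl, hall⟩ := hxy
      refine ⟨y, hx, ?_, rfl⟩
      intro j
      rcases hall j with h5 | h5
      · exact Or.inl h5.symm
      · exact Or.inr h5
    · rintro ⟨x, hx, hall, rfl⟩
      refine ⟨⟨x, hx, rfl⟩, ⟨x, hx, ?_⟩⟩
      symm
      rw [pt_eq q g h hg]
      exact ⟨rfl, hall⟩
  constructor
  · by_cases hD : ∀ j, j ≠ i → g j = h j
    · -- a common edge
      right; right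
      have hag : ∀ x, el i x = 0 → pt q g x = pt q h x := by
        intro x hx
        rw [pt_eq q g h hg]
        refine ⟨rfl, fun j => ?_⟩
        by_cases hj : j = i
        · right; rw [hj]; exact hx
        · left; exact hD j hj
      have e1 : el i (wv i) = 0 := ((h1 p hp).1 i i).2.2 (Or.inl rfl)
      have e2 : el i (wv (i + 1)) = 0 := ((h1 p hp).1 i (i + 1)).2.2 (Or.inr rfl)
      refine ⟨pt q g (wv i), pt q g (wv (i + 1)), ?_, ?_, ?_⟩
      · exact (h4 p q hp g hg _ _).2 ⟨i, Or.inl ⟨rfl, rfl⟩⟩
      · rw [hag _ e1, hag _ e2]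
        exact (h4 p q hp h hh _ _).2 ⟨i, Or.inl ⟨rfl, rfl⟩⟩
      · have e3 : segment ℝ (pt q g (wv i)) (pt q g (wv (i + 1))) =
            ptA q g '' segment ℝ (wv i) (wv (i + 1)) := by
          rw [image_segment, ptA_apply, ptA_apply]
        rw [e3]
        ext z
        rw [hint]
        constructor
        · rintro ⟨x, hx, hall, rfl⟩
          have h5 : el i x = 0 := (hall i).resolve_left hi
          exact ⟨x, ((h2 p hp x hx).1 i).1 h5, ptA_apply q g x⟩
        · rintro ⟨x, hx, rfl⟩
          have hxP : x ∈ PP p := by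
            have hconv : Convex ℝ (PP p) := convex_convexHull ℝ _
            exact hconv.segment_subset (subset_convexHull ℝ _ ⟨_, rfl⟩)
              (subset_convexHull ℝ _ ⟨_, rfl⟩) hx
          have h5 : el i x = 0 := ((h2 p hp x hxP).1 i).2 hx
          refine ⟨x, hxP, ?_, (ptA_apply q g x).symm⟩
          intro j
          by_cases hj : j = i
          · right; rw [hj]; exact h5
          · left; exact hD j hj
    · push Not at hD
      obtain ⟨j, hji, hj⟩ := hD
      by_cases hemp : body (fc q g) ∩ body (fc q h) = ∅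
      · exact Or.inl hemp
      · right; left
        rw [← Ne, ← Set.nonempty_iff_ne_empty] at hemp
        obtain ⟨z, hz⟩ := hemp
        -- the common vertex
        have huniq : ∃ t : Fin p, ∀ x ∈ PP p, (∀ k, g k = h k ∨ el k x = 0) → x = wv t := by
          obtain ⟨x, hx, hall, -⟩ := (hint z).1 hz
          have a1 : el i x = 0 := (hall i).resolve_left hi
          have a2 : el j x = 0 := (hall j).resolve_left hj
          have hv := val_succ p hp i
          have hv2 := val_succ p hp j
          have hno : ¬ (j = i + 1 ∧ i = j + 1) := by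
            rintro ⟨b1, b2⟩
            have c1 := congrArg Fin.val b1
            have c2 := congrArg Fin.val b2
            split_ifs at hv hv2 <;> omega
          rcases (h2 p hp x hx).2 i j (Ne.symm hji) a1 a2 with ⟨b1, b2⟩ | ⟨b1, b2⟩
          · refine ⟨j, ?_⟩
            intro y hy hally
            have a3 : el i y = 0 := (hally i).resolve_left hi
            have a4 : el j y = 0 := (hally j).resolve_left hj
            rcases (h2 p hp y hy).2 i j (Ne.symm hji) a3 a4 with ⟨c1, c2⟩ | ⟨c1, c2⟩
            · exact c2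
            · exact absurd ⟨b1, c1⟩ hno
          · refine ⟨i, ?_⟩
            intro y hy hally
            have a3 : el i y = 0 := (hally i).resolve_left hi
            have a4 : el j y = 0 := (hally j).resolve_left hj
            rcases (h2 p hp y hy).2 i j (Ne.symm hji) a3 a4 with ⟨c1, c2⟩ | ⟨c1, c2⟩
            · exact absurd ⟨c1, b1⟩ hno
            · exact c2
        obtain ⟨t, ht⟩ := huniq
        obtain ⟨x, hx, hall, hxz⟩ := (hint z).1 hz
        have hxt := ht x hx hall
        subst hxt
        refine ⟨pt q g (wv t), (mem_fc q g _).2 ⟨t, rfl⟩, ?_, ?_⟩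
        · rw [mem_fc]
          refine ⟨t, ?_⟩
          rw [pt_eq q h g hh]
          refine ⟨rfl, fun k => ?_⟩
          rcases hall k with h5 | h5
          · exact Or.inl h5.symm
          · exact Or.inr h5
        · ext w
          rw [hint, Set.mem_singleton_iff]
          constructor
          · rintro ⟨y, hy, hally, rfl⟩
            rw [ht y hy hally]
          · rintro rfl
            exact ⟨_, hx, hall, rfl⟩
  · intro heq
    -- the coordinate `(i, h i)`
    set c : Fin 2 ⊕ (Fin p × Fin q) := Sum.inr (i, ⟨h i, hh i⟩) with hc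
    have hle : affineSpan ℝ (fc q g : Set (Sp p q)) ≤
        (LinearMap.ker (LinearMap.proj (R := ℝ) (φ := fun _ => ℝ) c)).toAffineSubspace := by
      rw [affineSpan_le]
      intro z hz
      have hz' : z ∈ fc q g := hz
      rw [mem_fc] at hz'
      obtain ⟨s, rfl⟩ := hz'
      have h5 : pt q g (wv s) c = 0 := by
        simp only [hc, pt, Sum.elim_inr]
        rw [if_neg hi]
      have h6 : pt q g (wv s) ∈ LinearMap.ker (LinearMap.proj (R := ℝ) (φ := fun _ => ℝ) c) := by
        rw [LinearMap.mem_ker]
        exact h5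
      exact h6
    rw [heq] at hle
    have h5 : pt q h (wv (i + 1 + 1)) ∈ affineSpan ℝ (fc q h : Set (Sp p q)) := by
      apply subset_affineSpan
      exact (mem_fc q h _).2 ⟨_, rfl⟩
    have h6 : pt q h (wv (i + 1 + 1)) ∈
      LinearMap.ker (LinearMap.proj (R := ℝ) (φ := fun _ => ℝ) c) := hle h5
    rw [LinearMap.mem_ker] at h6
    have h7 : pt q h (wv (i + 1 + 1)) c = 0 := h6
    simp only [hc, pt, Sum.elim_inr, if_true] at h7
    exact el_two p hp i h7

end Pool.Agent.H56.PMF
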