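import Pool.Agent.H56.PMF.GON

/-!
# Row EDG: the edges of the faces
-/

set_option autoImplicit false

open scoped symmDiff

namespace Pool.Agent.H56.PMF

open Pool.Agent.H54.PM

theorem succ_ne (p : ℕ) [NeZero p] (hp : 3 ≤ p) (t : Fin p) : t + 1 ≠ t := by
  intro hh
  have h1 := val_succ p hp t
  have h2 := congrArg Fin.val hh
  split_ifs at h1 <;> omega

/-- The values of a linear function at the vertices. -/
theorem quad {p : ℕ} (q : ℕ) (g : Wd p) (f : Sp p q →L[ℝ] ℝ) :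
    ∃ a b c : ℝ, ∀ t : Fin p, f (pt q g (wv t)) = a + b * t.val + c * (t.val : ℝ) ^ 2 := by
  refine ⟨f (ptA q g 0), f ((ptA q g).linear (1, 0)), f ((ptA q g).linear (0, 1)), ?_⟩
  intro t
  have e1 : (wv t : ℝ × ℝ) = (t.val : ℝ) • ((1, 0) : ℝ × ℝ) + ((t.val : ℝ) ^ 2) • ((0, 1) : ℝ × ℝ) := by
    unfold wv
    ext <;> simp
  have e2 : ptA q g (wv t) = (ptA q g).linear (wv t) + ptA q g 0 := by
    have h := (ptA q g).map_vadd (0 : ℝ × ℝ) (wv t)
    simpa using h
  rw [← ptA_apply, e2, map_add, e1, map_add, map_smul, map_smul, map_add, map_smul, map_smul]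
  simp only [smul_eq_mul]
  ring

/-- Two vertices where a quadratic function has its strict maximum are neighbours. -/
theorem quad_max (p : ℕ) (hp : 3 ≤ p) (a b c : ℝ) (s r : ℕ) (hs : s < p) (hr : r < p)
    (hsr : s < r) (heq : a + b * s + c * (s : ℝ) ^ 2 = a + b * r + c * (r : ℝ) ^ 2)
    (hlt : ∀ n : ℕ, n < p → n ≠ s → n ≠ r →
      a + b * n + c * (n : ℝ) ^ 2 < a + b * s + c * (s : ℝ) ^ 2) :
    r = s + 1 ∨ (s = 0 ∧ r = p - 1) := by
  have hsrR : (s : ℝ) < r := by exact_mod_cast hsr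
  have hb : b = - c * (s + r) := by
    have h1 : ((r : ℝ) - s) * (b + c * (s + r)) = 0 := by nlinarith
    have h2 : (r : ℝ) - s ≠ 0 := by linarith
    have h3 := (mul_eq_zero.1 h1).resolve_left h2
    linarith
  have key : ∀ n : ℕ, n < p → n ≠ s → n ≠ r → c * (((n : ℝ) - s) * ((n : ℝ) - r)) < 0 := by
    intro n hn h1 h2
    have h3 := hlt n hn h1 h2
    rw [hb] at h3
    nlinarith
  by_contra hcon
  push Not at hcon
  obtain ⟨h1, h2⟩ := hcon
  have k1 := key (s + 1) (by omega) (by omega) (by omega)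
  have h3 : (((s + 1 : ℕ) : ℝ) - s) * (((s + 1 : ℕ) : ℝ) - r) < 0 := by
    have h4 : ((s + 1 : ℕ) : ℝ) + 1 ≤ r := by
      have : s + 1 + 1 ≤ r := by omega
      exact_mod_cast this
    push_cast at h4 ⊢
    nlinarith
  have hc : 0 < c := by
    by_contra h4
    have h5 : 0 ≤ c * ((((s + 1 : ℕ) : ℝ) - s) * (((s + 1 : ℕ) : ℝ) - r)) :=
      mul_nonneg_of_nonpos_of_nonpos (not_lt.1 h4) h3.le
    linarith
  rcases Nat.eq_zero_or_pos s with h4 | h4
  · have h5 : r ≠ p - 1 := h2 h4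
    have k2 := key (r + 1) (by omega) (by omega) (by omega)
    have h6 : 0 < (((r + 1 : ℕ) : ℝ) - s) * (((r + 1 : ℕ) : ℝ) - r) := by
      push_cast
      have : (0 : ℝ) < (r : ℝ) + 1 - s := by linarith
      nlinarith
    have := mul_pos hc h6
    linarith
  · have k2 := key (s - 1) (by omega) (by omega) (by omega)
    have h5 : ((s - 1 : ℕ) : ℝ) = (s : ℝ) - 1 := by
      rw [Nat.cast_sub h4]; norm_num
    have h6 : 0 < (((s - 1 : ℕ) : ℝ) - s) * (((s - 1 : ℕ) : ℝ) - r) := by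
      rw [h5]
      nlinarith
    have := mul_pos hc h6
    linarith

theorem pf_EDG (h0 : T_PO1) (h : T_PTI) : T_EDG := by
  intro p _ q hp g hg u v
  have hinj : ∀ s t : Fin p, pt q g (wv s) = pt q g (wv t) → s = t := by
    intro s t hst
    exact wv_inj ((pt_eq q g g hg (wv s) (wv t)).1 hst).1
  -- backwards, in one direction
  have back : ∀ t : Fin p, IsEdge (fc q g) (pt q g (wv t)) (pt q g (wv (t + 1))) := by
    intro t
    have hf : ∀ s : Fin p, (-(ContinuousLinearMap.proj (R := ℝ) (φ := fun _ => ℝ)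
        (Sum.inr (t, ⟨g t, hg t⟩) : Fin 2 ⊕ (Fin p × Fin q))) : Sp p q →L[ℝ] ℝ) (pt q g (wv s)) =
        - el t (wv s) := by
      intro s
      simp [pt]
    refine ⟨(mem_fc q g _).2 ⟨t, rfl⟩, (mem_fc q g _).2 ⟨t + 1, rfl⟩, ?_,
      -(ContinuousLinearMap.proj (R := ℝ) (φ := fun _ => ℝ)
        (Sum.inr (t, ⟨g t, hg t⟩) : Fin 2 ⊕ (Fin p × Fin q))), ?_, ?_⟩
    · intro hh
      exact succ_ne p hp t (hinj _ _ hh).symm
    · rw [hf, hf, ((h0 p hp).1 t t).2.2 (Or.inl rfl), ((h0 p hp).1 t (t + 1)).2.2 (Or.inr rfl)]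
    · intro a ha ha1 ha2
      rw [mem_fc] at ha
      obtain ⟨s, rfl⟩ := ha
      rw [hf, hf, ((h0 p hp).1 t t).2.2 (Or.inl rfl)]
      have h1 := (h0 p hp).1 t s
      have h2 : el t (wv s) ≠ 0 := by
        intro h3
        rcases h1.2.1 h3 with h4 | h4
        · exact ha1 (by rw [h4])
        · exact ha2 (by rw [h4])
      have h3 : 0 < el t (wv s) := lt_of_le_of_ne h1.1 (Ne.symm h2)
      linarith
  have sym : ∀ u v : Sp p q, IsEdge (fc q g) u v → IsEdge (fc q g) v u := by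
    rintro u v ⟨hu, hv, hne, f, hf1, hf2⟩
    refine ⟨hv, hu, hne.symm, f, hf1.symm, ?_⟩
    intro a ha h1 h2
    rw [← hf1]
    exact hf2 a ha h2 h1
  constructor
  · rintro ⟨hu, hv, hne, f, hf1, hf2⟩
    rw [mem_fc] at hu hv
    obtain ⟨s, rfl⟩ := hu
    obtain ⟨r, rfl⟩ := hv
    obtain ⟨a, b, c, hq⟩ := quad q g f
    have hsr : s.val ≠ r.val := by
      intro hh
      apply hne
      rw [Fin.ext hh]
    have hs := s.isLt
    have hr := r.isLt
    rcases Nat.lt_or_gt_of_ne hsr with hlt | hlt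
    · have h1 := quad_max p hp a b c s.val r.val hs hr hlt (by rw [← hq s, ← hq r]; exact hf1) (by
        intro n hn hn1 hn2
        have h2 := hf2 (pt q g (wv ⟨n, hn⟩)) ((mem_fc q g _).2 ⟨_, rfl⟩)
          (fun hh => hn1 (congrArg Fin.val (hinj _ _ hh)))
          (fun hh => hn2 (congrArg Fin.val (hinj _ _ hh)))
        rw [hq ⟨n, hn⟩, hq s] at h2
        exact h2)
      rcases h1 with h1 | ⟨h1, h2⟩
      · refine ⟨s, Or.inl ⟨rfl, ?_⟩⟩
        congr 2
        apply Fin.ext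
        rw [val_succ p hp, if_pos (by omega)]
        exact h1
      · refine ⟨r, Or.inr ⟨rfl, ?_⟩⟩
        congr 2
        apply Fin.ext
        rw [val_succ p hp, if_neg (by omega)]
        exact h1
    · have h1 := quad_max p hp a b c r.val s.val hr hs hlt (by rw [← hq s, ← hq r]; exact hf1.symm) (by
        intro n hn hn1 hn2
        have h2 := hf2 (pt q g (wv ⟨n, hn⟩)) ((mem_fc q g _).2 ⟨_, rfl⟩)
          (fun hh => hn2 (congrArg Fin.val (hinj _ _ hh)))
          (fun hh => hn1 (congrArg Fin.val (hinj _ _ hh)))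
        rw [hf1, hq ⟨n, hn⟩, hq r] at h2
        exact h2)
      rcases h1 with h1 | ⟨h1, h2⟩
      · refine ⟨r, Or.inr ⟨rfl, ?_⟩⟩
        congr 2
        apply Fin.ext
        rw [val_succ p hp, if_pos (by omega)]
        exact h1
      · refine ⟨s, Or.inl ⟨rfl, ?_⟩⟩
        congr 2
        apply Fin.ext
        rw [val_succ p hp, if_neg (by omega)]
        exact h1
  · rintro ⟨t, ⟨rfl, rfl⟩ | ⟨rfl, rfl⟩⟩
    · exact back t
    · exact sym _ _ (back t)

end Pool.Agent.H56.PMF
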