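import Pool.Agent.H56.PMF.PTI

/-!
# Row GON: the faces are `p`-gons
-/

set_option autoImplicit false

open scoped symmDiff

namespace Pool.Agent.H56.PMF

open Pool.Agent.H54.PM

theorem ptA_inj {p : ℕ} (q : ℕ) (g : Wd p) : Function.Injective (ptA (p := p) q g) := by
  intro x y h
  rw [ptA_apply, ptA_apply] at h
  have h0 := congrFun h (Sum.inl 0)
  have h1 := congrFun h (Sum.inl 1)
  simp only [pt, Sum.elim_inl, if_true] at h0
  have h10 : (1 : Fin 2) ≠ 0 := by decide
  simp only [pt, Sum.elim_inl, if_neg h10] at h1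
  exact Prod.ext h0 h1

theorem span_wv (p : ℕ) (hp : 3 ≤ p) : vectorSpan ℝ (Set.range (wv (p := p))) = ⊤ := by
  have h1 : ((1, 1) : ℝ × ℝ) ∈ vectorSpan ℝ (Set.range (wv (p := p))) := by
    have h := vsub_mem_vectorSpan ℝ (s := Set.range (wv (p := p)))
      (p₁ := wv (⟨1, by omega⟩ : Fin p)) (p₂ := wv (⟨0, by omega⟩ : Fin p)) ⟨_, rfl⟩ ⟨_, rfl⟩
    have e : wv (⟨1, by omega⟩ : Fin p) -ᵥ wv (⟨0, by omega⟩ : Fin p) = ((1, 1) : ℝ × ℝ) := by
      unfold wv
      ext <;> simp
    rwa [e] at h
  have h2 : ((2, 4) : ℝ × ℝ) ∈ vectorSpan ℝ (Set.range (wv (p := p))) := by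
    have h := vsub_mem_vectorSpan ℝ (s := Set.range (wv (p := p)))
      (p₁ := wv (⟨2, by omega⟩ : Fin p)) (p₂ := wv (⟨0, by omega⟩ : Fin p)) ⟨_, rfl⟩ ⟨_, rfl⟩
    have e : wv (⟨2, by omega⟩ : Fin p) -ᵥ wv (⟨0, by omega⟩ : Fin p) = ((2, 4) : ℝ × ℝ) := by
      unfold wv
      ext <;> norm_num
    rwa [e] at h
  rw [eq_top_iff]
  rintro ⟨a, b⟩ _
  have e : ((a, b) : ℝ × ℝ) = (2 * a - b) • ((1, 1) : ℝ × ℝ) + ((b - a) / 2) • ((2, 4) : ℝ × ℝ) := by
    ext
    · simp only [Prod.fst_add, Prod.smul_fst, smul_eq_mul]; ring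
    · simp only [Prod.snd_add, Prod.smul_snd, smul_eq_mul]; ring
  rw [e]
  exact Submodule.add_mem _ (Submodule.smul_mem _ _ h1) (Submodule.smul_mem _ _ h2)

theorem pf_GON (h0 : T_PO1) (h : T_PTI) : T_GON := by
  intro p _ q hp g hg
  refine ⟨hp, ?_, ?_, ?_⟩
  · unfold fc
    rw [Finset.card_image_of_injective, Finset.card_univ, Fintype.card_fin]
    intro s t hst
    have h1 := (pt_eq q g g hg (wv s) (wv t)).1 hst
    exact wv_inj h1.1
  · rw [fc_coe, ← AffineMap.map_vectorSpan, span_wv p hp, Submodule.map_top]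
    rw [LinearMap.finrank_range_of_inj]
    · simp
    · exact (AffineMap.linear_injective_iff _).2 (ptA_inj q g)
  · intro a ha hmem
    rw [mem_fc] at ha
    obtain ⟨t, rfl⟩ := ha
    -- the previous side
    have ht := t.isLt
    obtain ⟨r, hr⟩ : ∃ r : Fin p, r + 1 = t := by
      rcases Nat.eq_zero_or_pos t.val with h1 | h1
      · refine ⟨⟨p - 1, by omega⟩, ?_⟩
        apply Fin.ext
        rw [val_succ p hp]
        simp only
        rw [if_neg (by omega), h1]
      · refine ⟨⟨t.val - 1, by omega⟩, ?_⟩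
        apply Fin.ext
        rw [val_succ p hp]
        simp only
        rw [if_pos (by omega)]
        omega
    have hrt : r ≠ t := by
      intro hh
      have h1 := val_succ p hp r
      have h2 := congrArg Fin.val hr
      have h3 := congrArg Fin.val hh
      split_ifs at h1 <;> omega
    set φ : Sp p q → ℝ := fun z => z (Sum.inr (t, ⟨g t, hg t⟩)) + z (Sum.inr (r, ⟨g r, hg r⟩)) with hφ
    have hval : ∀ s : Fin p, φ (pt q g (wv s)) = el t (wv s) + el r (wv s) := by
      intro s
      simp only [hφ, pt, Sum.elim_inr, if_true]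
    have hconv : Convex ℝ {z : Sp p q | 0 < φ z} := by
      intro x hx y hy a b ha hb hab
      simp only [Set.mem_setOf_eq, hφ, Pi.add_apply, Pi.smul_apply, smul_eq_mul] at hx hy ⊢
      have e : a * x (Sum.inr (t, ⟨g t, hg t⟩)) + b * y (Sum.inr (t, ⟨g t, hg t⟩)) +
          (a * x (Sum.inr (r, ⟨g r, hg r⟩)) + b * y (Sum.inr (r, ⟨g r, hg r⟩))) =
          a * (x (Sum.inr (t, ⟨g t, hg t⟩)) + x (Sum.inr (r, ⟨g r, hg r⟩))) +
          b * (y (Sum.inr (t, ⟨g t, hg t⟩)) + y (Sum.inr (r, ⟨g r, hg r⟩))) := by ring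
      rw [e]
      rcases ha.eq_or_lt with h1 | h1
      · have hb1 : b = 1 := by linarith
        rw [← h1, hb1]
        linarith
      · exact add_pos_of_pos_of_nonneg (mul_pos h1 hx) (mul_nonneg hb hy.le)
    have hsub : (fc q g : Set (Sp p q)) \ {pt q g (wv t)} ⊆ {z : Sp p q | 0 < φ z} := by
      rintro z ⟨hz1, hz2⟩
      have hz3 : z ∈ fc q g := hz1
      rw [mem_fc] at hz3
      obtain ⟨s, rfl⟩ := hz3
      have hst : s ≠ t := by
        intro hh
        apply hz2
        rw [hh]
        rfl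
      simp only [Set.mem_setOf_eq]
      rw [hval]
      have a1 := (h0 p hp).1 t s
      have a2 := (h0 p hp).1 r s
      rcases a1.1.eq_or_lt with b1 | b1
      · rcases a2.1.eq_or_lt with b2 | b2
        · exfalso
          have c1 := a1.2.1 b1.symm
          have c2 := a2.2.1 b2.symm
          rcases c1 with c1 | c1
          · exact hst c1
          · rcases c2 with c2 | c2
            · have d0 := val_succ p hp r
              have d1 := val_succ p hp t
              have d2 := congrArg Fin.val hr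
              have d3 := congrArg Fin.val c1
              have d4 := congrArg Fin.val c2
              have d5 := r.isLt
              split_ifs at d0 d1 <;> omega
            · rw [hr] at c2
              exact hst c2
        · linarith
      · linarith [a2.1]
    have h1 := convexHull_min hsub hconv hmem
    simp only [Set.mem_setOf_eq] at h1
    rw [hval] at h1
    have a1 := ((h0 p hp).1 t t).2.2 (Or.inl rfl)
    have a2 := ((h0 p hp).1 r t).2.2 (Or.inr hr.symm)
    rw [a1, a2] at h1
    linarith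

end Pool.Agent.H56.PMF
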