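import Pool.Agent.H54.PM.Targets

/-!
# Row PO1: the polygon
-/

set_option autoImplicit false

open scoped symmDiff

namespace Pool.Agent.H56.PMF

open Pool.Agent.H54.PM

theorem val_succ (p : ℕ) [NeZero p] (hp : 3 ≤ p) (i : Fin p) :
    (i + 1 : Fin p).val = if i.val + 1 < p then i.val + 1 else 0 := by
  rw [Fin.val_add]
  have h1 : ((1 : Fin p) : ℕ) = 1 := by
    rw [Fin.val_one', Nat.mod_eq_of_lt (by omega)]
  rw [h1]
  split_ifs with h
  · exact Nat.mod_eq_of_lt h
  · have : i.val + 1 = p := by omega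
    rw [this, Nat.mod_self]

theorem el_wv1 {p : ℕ} (i t : Fin p) (h : i.val + 1 < p) :
    el i (wv t) = ((t.val : ℝ) - i.val) * ((t.val : ℝ) - i.val - 1) := by
  unfold el wv
  rw [if_pos h]
  ring

theorem el_wv2 {p : ℕ} (i t : Fin p) (h : ¬ i.val + 1 < p) :
    el i (wv t) = (t.val : ℝ) * ((p : ℝ) - 1 - t.val) := by
  unfold el wv
  rw [if_neg h]
  ring

theorem el_comb {p : ℕ} (i : Fin p) (a b : ℝ) (hab : a + b = 1) (x y : ℝ × ℝ) :
    el i (a • x + b • y) = a * el i x + b * el i y := by
  unfold el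
  split_ifs with h
  · simp only [Prod.fst_add, Prod.snd_add, Prod.smul_fst, Prod.smul_snd, smul_eq_mul]
    linear_combination (-(i.val : ℝ) * ((i.val : ℝ) + 1)) * hab
  · simp only [Prod.fst_add, Prod.snd_add, Prod.smul_fst, Prod.smul_snd, smul_eq_mul]
    ring

theorem el_nonneg (p : ℕ) [NeZero p] (hp : 3 ≤ p) (i t : Fin p) :
    0 ≤ el i (wv t) ∧ (el i (wv t) = 0 ↔ t = i ∨ t = i + 1) := by
  have hs := val_succ p hp i
  have ht := t.isLt
  by_cases h : i.val + 1 < p
  · rw [el_wv1 i t h]
    rw [if_pos h] at hs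
    constructor
    · rcases Nat.lt_or_ge i.val t.val with h1 | h1
      · have h2 : ((i.val : ℝ) + 1) ≤ t.val := by exact_mod_cast h1
        apply mul_nonneg <;> linarith
      · have h2 : (t.val : ℝ) ≤ i.val := by exact_mod_cast h1
        apply mul_nonneg_of_nonpos_of_nonpos <;> linarith
    · rw [mul_eq_zero]
      constructor
      · rintro (h1 | h1)
        · left
          apply Fin.ext
          have : (t.val : ℝ) = i.val := by linarith
          exact_mod_cast this
        · right
          apply Fin.ext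
          rw [hs]
          have : (t.val : ℝ) = ((i.val + 1 : ℕ) : ℝ) := by push_cast; linarith
          exact_mod_cast this
      · rintro (h1 | h1)
        · left; rw [h1]; ring
        · right
          have h2 : t.val = i.val + 1 := by rw [h1, hs]
          rw [h2]; push_cast; ring
  · rw [el_wv2 i t h]
    rw [if_neg h] at hs
    have hi : i.val = p - 1 := by have := i.isLt; omega
    have htp : (t.val : ℝ) ≤ (p : ℝ) - 1 := by
      have h1 : ((t.val + 1 : ℕ) : ℝ) ≤ (p : ℝ) := by exact_mod_cast ht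
      push_cast at h1
      linarith
    constructor
    · apply mul_nonneg (Nat.cast_nonneg _)
      linarith
    · rw [mul_eq_zero]
      constructor
      · rintro (h1 | h1)
        · right
          apply Fin.ext
          rw [hs]
          exact_mod_cast h1
        · left
          apply Fin.ext
          rw [hi]
          have h2 : ((t.val + 1 : ℕ) : ℝ) = (p : ℝ) := by push_cast; linarith
          have h3 : t.val + 1 = p := by exact_mod_cast h2
          omega
      · rintro (h1 | h1)
        · right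
          have h2 : t.val + 1 = p := by rw [h1]; omega
          have h3 : ((t.val + 1 : ℕ) : ℝ) = (p : ℝ) := by rw [h2]
          push_cast at h3
          linarith
        · left
          rw [h1, hs]
          simp

theorem pf_PO1 : T_PO1 := by
  intro p _ hp
  refine ⟨el_nonneg p hp, ?_⟩
  intro x
  constructor
  · intro hx i
    have hconv : Convex ℝ {x : ℝ × ℝ | 0 ≤ el i x} := by
      intro x hx y hy a b ha hb hab
      simp only [Set.mem_setOf_eq] at hx hy ⊢
      rw [el_comb i a b hab]
      exact add_nonneg (mul_nonneg ha hx) (mul_nonneg hb hy)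
    have hsub : PP p ⊆ {x : ℝ × ℝ | 0 ≤ el i x} := by
      apply convexHull_min _ hconv
      rintro _ ⟨t, rfl⟩
      exact (el_nonneg p hp i t).1
    exact hsub hx
  · intro hx
    have hpR : (3 : ℝ) ≤ p := by exact_mod_cast hp
    have h0 := hx ⟨0, by omega⟩
    have h1 := hx ⟨p - 1, by omega⟩
    have h2 := hx ⟨p - 2, by omega⟩
    unfold el at h0 h1 h2
    rw [if_pos (by simp; omega)] at h0
    rw [if_neg (by simp; omega)] at h1
    rw [if_pos (by simp; omega)] at h2
    simp only [Nat.cast_zero, mul_zero, zero_add, zero_mul, add_zero, one_mul] at h0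
    have hc2 : ((p - 2 : ℕ) : ℝ) = (p : ℝ) - 2 := by
      rw [Nat.cast_sub (by omega)]; norm_num
    simp only [hc2] at h2
    have hx0 : 0 ≤ x.1 := by
      have : 0 ≤ ((p : ℝ) - 2) * x.1 := by nlinarith
      exact nonneg_of_mul_nonneg_right this (by linarith)
    have hx1 : x.1 ≤ (p : ℝ) - 1 := by
      have h3 : 0 ≤ ((p : ℝ) - 2) * ((p : ℝ) - 1 - x.1) := by nlinarith
      have h4 := nonneg_of_mul_nonneg_right h3 (by linarith)
      linarith
    -- the piece
    obtain ⟨t, ht1, ht2, ht3⟩ : ∃ t : ℕ, t + 1 < p ∧ (t : ℝ) ≤ x.1 ∧ x.1 ≤ t + 1 := by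
      by_cases hf : ⌊x.1⌋₊ ≤ p - 2
      · exact ⟨⌊x.1⌋₊, by omega, Nat.floor_le hx0, (Nat.lt_floor_add_one x.1).le⟩
      · have h5 : p - 1 ≤ ⌊x.1⌋₊ := by omega
        have h6 : ((p - 1 : ℕ) : ℝ) ≤ x.1 := by
          rw [← Nat.le_floor_iff hx0]; exact h5
        refine ⟨p - 2, by omega, ?_, ?_⟩
        · have : ((p - 2 : ℕ) : ℝ) ≤ ((p - 1 : ℕ) : ℝ) := by
            exact_mod_cast (by omega : p - 2 ≤ p - 1)
          linarith
        · rw [hc2]; linarith
    have hPP : Convex ℝ (PP p) := convex_convexHull ℝ _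
    have hw : ∀ t : Fin p, wv t ∈ PP p := fun t => subset_convexHull ℝ _ ⟨t, rfl⟩
    have hL : ((x.1, (2 * (t : ℝ) + 1) * x.1 - t * (t + 1)) : ℝ × ℝ) ∈ PP p := by
      have h5 := hPP (hw ⟨t, by omega⟩) (hw ⟨t + 1, ht1⟩)
        (show 0 ≤ (t : ℝ) + 1 - x.1 by linarith) (show 0 ≤ x.1 - t by linarith) (by ring)
      have e : ((x.1, (2 * (t : ℝ) + 1) * x.1 - t * (t + 1)) : ℝ × ℝ) =
          ((t : ℝ) + 1 - x.1) • wv (⟨t, by omega⟩ : Fin p) + (x.1 - t) • wv (⟨t + 1, ht1⟩ : Fin p) := by
        unfold wv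
        ext
        · simp only [Prod.fst_add, Prod.smul_fst, smul_eq_mul]; push_cast; ring
        · simp only [Prod.snd_add, Prod.smul_snd, smul_eq_mul]; push_cast; ring
      rw [e]
      exact h5
    have hU : ((x.1, ((p : ℝ) - 1) * x.1) : ℝ × ℝ) ∈ PP p := by
      have hp1 : (0 : ℝ) < (p : ℝ) - 1 := by linarith
      have h5 := hPP (hw ⟨0, by omega⟩) (hw ⟨p - 1, by omega⟩)
        (show 0 ≤ 1 - x.1 / ((p : ℝ) - 1) by
          have : x.1 / ((p : ℝ) - 1) ≤ 1 := by rw [div_le_one hp1]; exact hx1
          linarith)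
        (show 0 ≤ x.1 / ((p : ℝ) - 1) from div_nonneg hx0 hp1.le) (by ring)
      have hc1 : ((p - 1 : ℕ) : ℝ) = (p : ℝ) - 1 := by
        rw [Nat.cast_sub (by omega)]; norm_num
      have e : ((x.1, ((p : ℝ) - 1) * x.1) : ℝ × ℝ) =
          (1 - x.1 / ((p : ℝ) - 1)) • wv (⟨0, by omega⟩ : Fin p) +
            (x.1 / ((p : ℝ) - 1)) • wv (⟨p - 1, by omega⟩ : Fin p) := by
        unfold wv
        ext
        · simp only [Prod.fst_add, Prod.smul_fst, smul_eq_mul, hc1]
          field_simp
          ring
        · simp only [Prod.snd_add, Prod.smul_snd, smul_eq_mul, hc1]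
          field_simp
          ring
      rw [e]
      exact h5
    have h3 := hx ⟨t, by omega⟩
    unfold el at h3
    rw [if_pos (by simpa using ht1)] at h3
    simp only at h3
    set l : ℝ := (2 * (t : ℝ) + 1) * x.1 - t * (t + 1) with hl
    set u : ℝ := ((p : ℝ) - 1) * x.1 with hu
    have hlx : l ≤ x.2 := by rw [hl]; linarith
    have hxu : x.2 ≤ u := by rw [hu]; linarith
    rcases (le_trans hlx hxu).eq_or_lt with h4 | h4
    · have e : x = (x.1, l) := by
        ext
        · rfl
        · simp only; linarith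
      rw [e]
      exact hL
    · have hd : 0 < u - l := by linarith
      have h5 := hPP hL hU (show 0 ≤ (u - x.2) / (u - l) from div_nonneg (by linarith) hd.le)
        (show 0 ≤ (x.2 - l) / (u - l) from div_nonneg (by linarith) hd.le)
        (by field_simp; ring)
      have e : x = ((u - x.2) / (u - l)) • ((x.1, l) : ℝ × ℝ) +
          ((x.2 - l) / (u - l)) • ((x.1, u) : ℝ × ℝ) := by
        ext
        · simp only [Prod.fst_add, Prod.smul_fst, smul_eq_mul]
          field_simp
          ring
        · simp only [Prod.snd_add, Prod.smul_snd, smul_eq_mul]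
          field_simp
          ring
      rw [e]
      exact h5

end Pool.Agent.H56.PMF
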