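import Pool.Agent.H56.PMF.PO1

/-!
# Row PTI: the points of the faces
-/

set_option autoImplicit false

open scoped symmDiff

namespace Pool.Agent.H56.PMF

open Pool.Agent.H54.PM

/-- The affine function of a side. -/
noncomputable def elA {p : ℕ} (i : Fin p) : (ℝ × ℝ) →ᵃ[ℝ] ℝ :=
  if i.val + 1 < p then
    (LinearMap.snd ℝ ℝ ℝ - (2 * (i.val : ℝ) + 1) • LinearMap.fst ℝ ℝ ℝ).toAffineMap +
      AffineMap.const ℝ (ℝ × ℝ) ((i.val : ℝ) * (i.val + 1))
  else (((p : ℝ) - 1) • LinearMap.fst ℝ ℝ ℝ - LinearMap.snd ℝ ℝ ℝ).toAffineMap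

theorem elA_apply {p : ℕ} (i : Fin p) (x : ℝ × ℝ) : elA i x = el i x := by
  unfold elA el
  split_ifs with h
  · simp
  · simp

/-- The affine map of a face. -/
noncomputable def ptA {p : ℕ} (q : ℕ) (g : Fin p → ℕ) : (ℝ × ℝ) →ᵃ[ℝ] Sp p q :=
  AffineMap.pi fun c => match c with
    | Sum.inl k => if k = 0 then (LinearMap.fst ℝ ℝ ℝ).toAffineMap else
        (LinearMap.snd ℝ ℝ ℝ).toAffineMap
    | Sum.inr a => if g a.1 = a.2.val then elA a.1 else AffineMap.const ℝ (ℝ × ℝ) 0

theorem ptA_apply {p : ℕ} (q : ℕ) (g : Fin p → ℕ) (x : ℝ × ℝ) : ptA q g x = pt q g x := by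
  funext c
  unfold ptA pt
  rcases c with k | a
  · simp only [AffineMap.pi_apply, Sum.elim_inl]
    split_ifs <;> simp
  · simp only [AffineMap.pi_apply, Sum.elim_inr]
    split_ifs
    · exact elA_apply _ _
    · simp

theorem pt_eq {p : ℕ} (q : ℕ) (g h : Wd p) (hg : ∀ i, g i < q) (x y : ℝ × ℝ) :
    pt q g x = pt q h y ↔ x = y ∧ ∀ i, g i = h i ∨ el i x = 0 := by
  constructor
  · intro hxy
    have h0 := congrFun hxy (Sum.inl 0)
    have h1 := congrFun hxy (Sum.inl 1)
    simp only [pt, Sum.elim_inl, if_true] at h0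
    have h10 : (1 : Fin 2) ≠ 0 := by decide
    simp only [pt, Sum.elim_inl, if_neg h10] at h1
    have hx : x = y := Prod.ext h0 h1
    refine ⟨hx, ?_⟩
    intro i
    by_cases hi : g i = h i
    · exact Or.inl hi
    · right
      have h2 := congrFun hxy (Sum.inr (i, ⟨g i, hg i⟩))
      simp only [pt, Sum.elim_inr, if_true] at h2
      rw [if_neg (fun h => hi h.symm)] at h2
      exact h2
  · rintro ⟨rfl, hall⟩
    funext c
    rcases c with k | a
    · rfl
    · simp only [pt, Sum.elim_inr]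
      rcases hall a.1 with h1 | h1
      · rw [h1]
      · rw [h1]
        simp

theorem fc_coe {p : ℕ} (q : ℕ) (g : Fin p → ℕ) :
    (fc q g : Set (Sp p q)) = ptA q g '' Set.range (wv (p := p)) := by
  unfold fc
  rw [Finset.coe_image, Finset.coe_univ, ← Set.range_comp, Set.image_univ]
  congr 1
  funext t
  simp only [Function.comp, ptA_apply]

theorem mem_fc {p : ℕ} (q : ℕ) (g : Fin p → ℕ) (u : Sp p q) :
    u ∈ fc q g ↔ ∃ t : Fin p, pt q g (wv t) = u := by
  unfold fc
  simp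

theorem body_fc {p : ℕ} (q : ℕ) (g : Fin p → ℕ) : body (fc q g) = pt q g '' PP p := by
  unfold body PP
  rw [fc_coe, ← AffineMap.image_convexHull]
  apply Set.image_congr
  intro x _
  exact ptA_apply q g x

/-- `i + 2` is not on the side `i`. -/
theorem el_two (p : ℕ) [NeZero p] (hp : 3 ≤ p) (i : Fin p) : el i (wv (i + 1 + 1)) ≠ 0 := by
  intro h
  have h1 := (el_nonneg p hp i (i + 1 + 1)).2.1 h
  have hs := val_succ p hp i
  have hs2 := val_succ p hp (i + 1)
  have hi := i.isLt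
  rcases h1 with h2 | h2
  · have h3 := congrArg Fin.val h2
    split_ifs at hs hs2 <;> omega
  · have h3 := congrArg Fin.val h2
    split_ifs at hs hs2 <;> omega

theorem wv_inj {p : ℕ} : Function.Injective (wv (p := p)) := by
  intro s t h
  have h1 := congrArg Prod.fst h
  simp only [wv] at h1
  apply Fin.ext
  exact_mod_cast h1

theorem pf_PTI : T_PTI := by
  intro p _ q hp
  refine ⟨fun g h hg _ x y => pt_eq q g h hg x y, fun g => body_fc q g,
    fun g => ⟨ptA q g, ptA_apply q g⟩, ?_⟩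
  intro g h hg hh hgh
  funext i
  have h1 : pt q g (wv (i + 1 + 1)) ∈ fc q h := by
    rw [← hgh, mem_fc]
    exact ⟨_, rfl⟩
  rw [mem_fc] at h1
  obtain ⟨s, hs⟩ := h1
  rw [pt_eq q h g hh] at hs
  rcases hs.2 i with h2 | h2
  · exact h2.symm
  · exfalso
    rw [hs.1] at h2
    exact el_two p hp i h2

end Pool.Agent.H56.PMF
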